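import Pool.Agent.MWLQ.StmtsB

/-!
# Row BLK of block MWLQ: the image of the first block (copy of `Pool/Agent/Helper19_MWLE/BLK.lean`
of helper19, period `n`)
-/

set_option autoImplicit false

namespace Pool.Agent.MWLQ.H25

open Pool.Agent.Helper14_MV
open Pool.Agent.Helper2_MV (RR)
open Pool.Agent.MWK (pre pre_append pre_append_mem pre_prefix)
open Pool.Agent.MWF (gaml)
open Pool.Agent.MWGN (nn Tau gh)
open Pool.Agent.MWGQ (pw Z Gn E0 A0 P0)
open Pool.Agent.MWLE (pin sep con tl tll Sg t1 Fc Fb Fy Fx Fu Fz rz sf k0)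

theorem count_flatMap_ge (f : ℕ → List ℕ) (c a : ℕ) : ∀ l : List ℕ,
    l.count c * (f c).count a ≤ (l.flatMap f).count a
  | [] => by simp
  | b :: l => by
    have ih := count_flatMap_ge f c a l
    rw [List.flatMap_cons, List.count_append]
    by_cases hb : b = c
    · subst hb
      rw [List.count_cons_self, Nat.add_mul]
      omega
    · rw [List.count_cons_of_ne hb]
      omega

theorem two_of_mem {f : ℕ → List ℕ} {c a : ℕ} {l : List ℕ} (h : 2 ≤ l.count c) (ha : a ∈ f c) :
    2 ≤ (l.flatMap f).count a := by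
  have h1 := count_flatMap_ge f c a l
  have h2 : 1 ≤ (f c).count a := List.count_pos_iff.mpr ha
  have h3 : 2 * 1 ≤ l.count c * (f c).count a := Nat.mul_le_mul h h2
  omega

theorem t1_sep {σ τ : List ℕ} {m : ℕ} (hS : Sg σ τ m) : ∃ h ≤ 2 * m + 2, t1 σ = sep h := by
  have h0 : 0 ∈ σ := (hS.me 0).2 (Nat.zero_le _)
  cases σ with
  | nil => exact absurd h0 List.not_mem_nil
  | cons a σ => exact ⟨a, (hS.me a).1 List.mem_cons_self, rfl⟩

theorem blk (h1 : TwcStmt) : BlkStmt := by
  intro n hn σ τ m hS d g f p q W hW hF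
  obtain ⟨t1', t2, t3, t4⟩ := h1 n hn σ τ m hS d g
  have hsep : ∀ c ∈ wb n m d g, ∀ k ≤ 2 * m + 2, sep k ∉ f c := by
    intro c hc k hk hm
    have e1 := two_of_mem (f := f) (t1' c hc) hm
    have e2 := hF.s1 k hk
    rw [hW, List.count_append, List.count_append] at e2
    omega
  refine ⟨hsep, ?_⟩
  intro c hcp hc k hk
  obtain ⟨h, hh, ht⟩ := t1_sep hS
  have hwd : (wd n σ m d g).flatMap f = (wb n m d g).flatMap f ++ (tl σ).flatMap f := by
    unfold wd
    rw [List.flatMap_append]
  have htp : t1 σ ∉ p := by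
    intro hm
    have e1 : pre W (t1 σ) = pre p (t1 σ) := by
      rw [hW, pre_append_mem hm]
    unfold nn at hc
    rw [e1] at hc
    have e2 : c ∈ pre p (t1 σ) := List.count_pos_iff.mp hc
    exact hcp ((pre_prefix p (t1 σ)).subset e2)
  have htb : t1 σ ∉ (wb n m d g).flatMap f := by
    intro hm
    obtain ⟨b, hb, hb'⟩ := List.mem_flatMap.mp hm
    rw [ht] at hb'
    exact hsep b hb h hh hb'
  have htpb : t1 σ ∉ p ++ (wb n m d g).flatMap f := by
    intro hm
    rcases List.mem_append.mp hm with h | h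
    · exact htp h
    · exact htb h
  have hpre : pre W (t1 σ) =
      (p ++ (wb n m d g).flatMap f) ++ pre ((tl σ).flatMap f ++ q) (t1 σ) := by
    have e1 : W = (p ++ (wb n m d g).flatMap f) ++ ((tl σ).flatMap f ++ q) := by
      rw [hW, hwd]
      simp only [List.append_assoc]
    rw [e1, pre_append htpb]
  have hcount : (p ++ (wb n m d g).flatMap f).count (pin k) ≤ 1 := by
    have e1 := hF.pt k hk
    unfold nn at e1
    rw [hpre, List.count_append] at e1
    omega
  refine ⟨hcount, ?_⟩
  intro a ha hpa hm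
  have e1 := two_of_mem (f := f) (t2 a ha hpa) hm
  rw [List.count_append] at hcount
  omega

end Pool.Agent.MWLQ.H25
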